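import Pool.Agent.Lib.MP_305fdd_al.Su.EX.Cyc

/-!
# MP_305fdd_al, closed surface groups: amalgams with an infinite cyclic factor, exponent a power of two
-/

set_option autoImplicit false
set_option linter.unusedSectionVars false

namespace Pool.Agent.SuEX

open Matrix (SpecialLinearGroup)
open Pool.Agent.Lib.MP_305fdd_al Pool.Agent.MP_305fdd_al Pool.Agent.SurfCnt Pool.Agent.SuD
  Pool.Agent.SuFI Pool.Agent.FrS Pool.Agent.FrN Pool.Agent.SuX Pool.Agent.FrNC

/-! ## Matrices -/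

section mat

/-- the matrices `1 + ε X` form an elementary abelian group -/
def hX : (Fin 3 → Multiplicative (ZMod 2)) →* Q2 where
  toFun x := oneX fun i => (x i).toAdd
  map_one' := by
    apply Subtype.ext
    show (oneX fun _ => 0).1 = (1 : Matrix (Fin 2) (Fin 2) (DualNumber (ZMod 2)))
    ext1 i j
    refine TrivSqZeroExt.ext ?_ ?_
    · fin_cases i <;> fin_cases j <;> simp [oneX]
    · fin_cases i <;> fin_cases j <;> simp [oneX]
  map_mul' := by
    intro x y
    apply Subtype.ext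
    show (oneX fun i => (x i).toAdd + (y i).toAdd).1 =
      (oneX fun i => (x i).toAdd).1 * (oneX fun i => (y i).toAdd).1
    ext1 i j
    rw [Matrix.mul_apply, Fin.sum_univ_two]
    refine TrivSqZeroExt.ext ?_ ?_
    · fin_cases i <;> fin_cases j <;> simp [oneX]
    · fin_cases i <;> fin_cases j <;> simp [oneX, add_comm]

theorem hX_inj : Function.Injective hX := by
  intro x y h
  funext i
  exact Multiplicative.toAdd.injective (congrFun (oneX_inj h) i)

theorem pr_hX (x : Fin 3 → Multiplicative (ZMod 2)) : pr (hX x) = 1 :=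
  pr_eq.1 fun i j => oneX_fst _ i j

theorem exists_hX {s : Q2} (hs : pr s = 1) : ∃ x, s = hX x := by
  have hf := pr_eq.2 hs
  have h00 : TrivSqZeroExt.fst (s.1 0 0) = 1 := (hf 0 0).trans (by decide)
  have h01 : TrivSqZeroExt.fst (s.1 0 1) = 0 := (hf 0 1).trans (by decide)
  have h10 : TrivSqZeroExt.fst (s.1 1 0) = 0 := (hf 1 0).trans (by decide)
  have h11 : TrivSqZeroExt.fst (s.1 1 1) = 1 := (hf 1 1).trans (by decide)
  have hd := congrArg TrivSqZeroExt.snd s.2
  rw [Matrix.det_fin_two] at hd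
  simp only [TrivSqZeroExt.snd_sub, TrivSqZeroExt.snd_mul, smul_eq_mul,
    MulOpposite.smul_eq_mul_unop, MulOpposite.unop_op, TrivSqZeroExt.snd_one, h00, h01, h10, h11,
    one_mul, mul_one, zero_mul, mul_zero, add_zero, sub_zero] at hd
  have hd' : TrivSqZeroExt.snd (s.1 1 1) = TrivSqZeroExt.snd (s.1 0 0) := by
    have h2 := CharTwo.add_self_eq_zero (TrivSqZeroExt.snd (s.1 0 0))
    exact add_right_cancel (b := TrivSqZeroExt.snd (s.1 0 0)) (by rw [h2]; exact hd)
  refine ⟨![Multiplicative.ofAdd (TrivSqZeroExt.snd (s.1 0 0)),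
    Multiplicative.ofAdd (TrivSqZeroExt.snd (s.1 0 1)),
    Multiplicative.ofAdd (TrivSqZeroExt.snd (s.1 1 0))], ?_⟩
  apply Subtype.ext
  show s.1 = (oneX _).1
  ext1 i j
  refine TrivSqZeroExt.ext ?_ ?_
  · fin_cases i <;> fin_cases j <;> simp [oneX, h00, h01, h10, h11]
  · fin_cases i <;> fin_cases j <;> simp [oneX, hd']

/-- constants -/
def cst : Q1 →* Q2 :=
  SpecialLinearGroup.map (algebraMap (ZMod 2) (DualNumber (ZMod 2)))

theorem pr_cst (q : Q1) : pr (cst q) = q := by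
  refine pr_eq.1 fun i j => ?_
  rfl

theorem qu_ne : qu ≠ 1 := by decide

theorem qu_sq : qu ^ 2 = 1 := by decide

theorem tz_ne : ∃ x : TZ, x - qu • x ≠ 0 := by decide

end mat

section even

variable {g : ℕ} {Λ Γ : Type} [Group Λ] [Group Γ] {π : Λ →* Γ} {A : Subgroup Γ} {w : Γ} {m : ℕ}

/-- `2 ^ (2 g) ≤ 2 |{f : A → Z/2, f (w ^ m) = 1}|` -/
theorem CW.two_le (Φ : NatBij Λ (SurfG g)) (hF : Fac π) (hfg : Group.FG A) (h : CW A w m) :
    2 ^ (2 * g) ≤ Nat.card (HZ h (Multiplicative (ZMod 2))) * 2 := by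
  have hfM : Finite (Multiplicative (ZMod 2)) := inferInstanceAs (Finite (ZMod 2))
  have hfA : Finite (A →* Multiplicative (ZMod 2)) := fin_hom
  have h1 := h.card_le (Multiplicative (ZMod 2))
  rw [hF.card emb_two, card_hom_add Φ, Nat.card_zmod] at h1
  have h2 : Nat.card (Multiplicative (ZMod 2)) = 2 := Nat.card_zmod 2
  rwa [h2] at h1

theorem two_pow_eq (c : Multiplicative (ZMod 2)) (hm : Even m) : c ^ m = 1 := by
  obtain ⟨n, rfl⟩ := hm
  have h1 : c ^ 2 = 1 := by
    revert c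
    decide
  rw [← two_mul, pow_mul, h1, one_pow]

/-- `w ^ m` is not trivial in `H_1(A; Z/2)` -/
theorem CW.not_triv (Φ : NatBij Λ (SurfG g)) (hF : Fac π) (hfg : Group.FG A) (h : CW A w m)
    {k : ℕ} (hk : 1 ≤ k) (hm : m = 2 ^ k) :
    ∃ f : A →* Multiplicative (ZMod 2), f ⟨w ^ m, h.mem⟩ ≠ 1 := by
  by_contra hcon
  push Not at hcon
  have heven : Even m := by
    rw [hm]
    exact (Nat.even_pow.2 ⟨even_two, by omega⟩)
  have hfM : Finite (Multiplicative (ZMod 2)) := inferInstanceAs (Finite (ZMod 2))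
  have hfA : Finite (A →* Multiplicative (ZMod 2)) := fin_hom
  have hΓ : Nat.card (Γ →* Multiplicative (ZMod 2)) = 2 ^ (2 * g) := by
    rw [hF.card emb_two, card_hom_add Φ, Nat.card_zmod]
  have hfΓ : Finite (Γ →* Multiplicative (ZMod 2)) := by
    apply Nat.finite_of_card_ne_zero
    rw [hΓ]
    positivity
  -- lower bound for `Γ`
  have h1 : Nat.card (A →* Multiplicative (ZMod 2)) * 2 ≤ 2 ^ (2 * g) := by
    have h2 : Nat.card (A →* Multiplicative (ZMod 2)) * Nat.card (Multiplicative (ZMod 2)) ≤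
        Nat.card (Γ →* Multiplicative (ZMod 2)) → Nat.card (A →* Multiplicative (ZMod 2)) * 2 ≤
        2 ^ (2 * g) := by
      intro h3
      have h4 : Nat.card (Multiplicative (ZMod 2)) = 2 := Nat.card_zmod 2
      rwa [hΓ, h4] at h3
    apply h2
    rw [← Nat.card_prod]
    have h3 : ∀ x : (A →* Multiplicative (ZMod 2)) × Multiplicative (ZMod 2),
        ∃ r : Γ →* Multiplicative (ZMod 2), (∀ y : A, r y = x.1 y) ∧ r w = x.2 := by
      rintro ⟨f, c⟩
      exact h.ext' emb_two f c (by rw [hcon f, two_pow_eq c heven])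
    choose R hR1 hR2 using h3
    refine Nat.card_le_card_of_injective R ?_
    intro x x' he
    apply Prod.ext
    · ext y : 1
      rw [← hR1 x, ← hR1 x', he]
    · rw [← hR2 x, ← hR2 x', he]
  -- rank
  obtain ⟨n, N, hN, h2, h3⟩ := rank_ab A
  obtain ⟨ℓ, hℓ, hp⟩ := Nat.exists_infinite_primes (N + 3)
  have hfact : Fact ℓ.Prime := ⟨hp⟩
  have hℓN : ¬ ℓ ∣ N := fun hd => by
    have := Nat.le_of_dvd (Nat.pos_of_ne_zero hN) hd
    omega
  have hfMl : Finite (Multiplicative (ZMod ℓ)) := inferInstanceAs (Finite (ZMod ℓ))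
  have hfAl : Finite (A →* Multiplicative (ZMod ℓ)) := fin_hom
  have h4 : ℓ ^ (2 * g) ≤ ℓ ^ n := by
    rw [← h2 ℓ hp hℓN, ← card_hom_add' Φ hF ℓ]
    refine Nat.card_le_card_of_injective (fun r : Γ →* Multiplicative (ZMod ℓ) =>
      r.comp A.subtype) ?_
    intro r r' he
    refine h.hom_eq (fun x hx => DFunLike.congr_fun he ⟨x, hx⟩) ?_
    have h5 : r (w ^ m) = r' (w ^ m) := DFunLike.congr_fun he ⟨w ^ m, h.mem⟩
    rw [map_pow, map_pow] at h5
    have hcop : Nat.Coprime (Nat.card (Multiplicative (ZMod ℓ))) m := by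
      have h6 : Nat.card (Multiplicative (ZMod ℓ)) = ℓ := Nat.card_zmod ℓ
      rw [h6, hm]
      refine Nat.Coprime.pow_right k ?_
      rw [Nat.coprime_primes hp Nat.prime_two]
      omega
    exact (powCoprime hcop).injective h5
  have h5 : 2 * g ≤ n := (Nat.pow_le_pow_iff_right hp.one_lt).1 h4
  have h6 := h3 2 Nat.prime_two
  have h7 : (2 : ℕ) ^ (2 * g) ≤ 2 ^ n := Nat.pow_le_pow_right (by norm_num) h5
  have h8 : 0 < (2 : ℕ) ^ (2 * g) := by positivity
  omega

/-- upper bound for the number of lifts to the dual numbers -/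
theorem dl_le (Φ : NatBij Λ (SurfG g)) (hs : Function.Surjective π) [Group.FG Λ] (r : Γ →* Q1)
    (w : Γ) (hr : r w = qu) : Nat.card (DL r) * 2 ≤ 2 ^ (6 * g) := by
  have h1 := card_Crs Φ (r.comp π) TZ
  rw [card_TZ] at h1
  obtain ⟨l, rfl⟩ := hs w
  obtain ⟨x, hx⟩ := tz_ne
  have hI : 2 ≤ Nat.card (IP TZ (r.comp π).range) := by
    have h2 : x - qu • x ∈ IP TZ (r.comp π).range :=
      sub_mem_IP (MonoidHom.mem_range.2 ⟨l, hr⟩) x
    have h3 : Nontrivial (IP TZ (r.comp π).range) :=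
      ⟨⟨⟨_, h2⟩, 0, fun h => hx (congrArg Subtype.val h)⟩⟩
    exact Finite.one_lt_card
  have h8 : (8 : ℕ) ^ (2 * g) = 2 ^ (6 * g) := by
    have e8 : (8 : ℕ) = 2 ^ 3 := by norm_num
    rw [e8, ← pow_mul]
    congr 1
    omega
  rw [h8] at h1
  have hfin : Finite (Crs (r.comp π) TZ) := by
    apply Nat.finite_of_card_ne_zero
    intro h0
    rw [h0, zero_mul] at h1
    have : 0 < 2 ^ (6 * g) := by positivity
    omega
  have h2 : Nat.card (DL r) ≤ Nat.card (Crs (r.comp π) TZ) := by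
    refine (Nat.card_le_card_of_injective (fun s : DL r =>
      (⟨s.1.comp π, fun l i j => s.2 (π l) i j⟩ : DL (r.comp π))) ?_).trans
      (Nat.card_le_card_of_injective _ (dlc_inj (r.comp π)))
    intro s s' h
    apply Subtype.ext
    ext γ : 1
    obtain ⟨l, rfl⟩ := hs γ
    exact DFunLike.congr_fun (congrArg Subtype.val h) l
  calc Nat.card (DL r) * 2 ≤ Nat.card (Crs (r.comp π) TZ) * Nat.card (IP TZ (r.comp π).range) :=
        Nat.mul_le_mul h2 hI
    _ = 2 ^ (6 * g) := h1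

/-- the exponent is not a power of two -/
theorem CW.no_two (Φ : NatBij Λ (SurfG g)) (hF : Fac π) (hfg : Group.FG A) [Group.FG Λ]
    (h : CW A w m) {k : ℕ} (hk : 1 ≤ k) (hm : m = 2 ^ k) : False := by
  have heven : Even m := by
    rw [hm]
    exact (Nat.even_pow.2 ⟨even_two, by omega⟩)
  have hfM : Finite (Multiplicative (ZMod 2)) := inferInstanceAs (Finite (ZMod 2))
  have hfA : Finite (A →* Multiplicative (ZMod 2)) := fin_hom
  obtain ⟨f0, hf0⟩ := h.not_triv Φ hF hfg hk hm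
  have hf0' : f0 ⟨w ^ m, h.mem⟩ = Multiplicative.ofAdd 1 := by
    have h1 : ∀ c : Multiplicative (ZMod 2), c ≠ 1 → c = Multiplicative.ofAdd 1 := by decide
    exact h1 _ hf0
  have hum : qu ^ m = 1 := by
    obtain ⟨n, rfl⟩ := heven
    rw [← two_mul, pow_mul, qu_sq, one_pow]
  obtain ⟨y, hyA, hyw⟩ := h.ext (MonoidHom.id Q1) Function.injective_id (1 : A →* Q1) qu (by
    rw [hum]
    rfl)
  -- the tuples
  let hZ : Type := HZ h (Multiplicative (ZMod 2))
  let M3 : Type := Fin 3 → Multiplicative (ZMod 2)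
  let tup : (Fin 3 → hZ) → M3 → (A →* M3) := fun F v =>
    MonoidHom.pi fun i => (F i).1 * f0 ^ (v i).toAdd.val
  have htapp : ∀ F v x i, tup F v x i = (F i).1 x * f0 x ^ (v i).toAdd.val := fun _ _ _ _ => rfl
  have htup : ∀ F v, tup F v ⟨w ^ m, h.mem⟩ = v := by
    intro F v
    funext i
    rw [htapp, (F i).2, one_mul, hf0', ← ofAdd_nsmul, nsmul_one, ZMod.natCast_zmod_val,
      ofAdd_toAdd]
  -- the lifts
  have hex : ∀ X : M3 × (Fin 3 → hZ), ∃ (r : Γ →* Q2) (v : M3), (∀ x : A, r x = hX (tup X.2 v x)) ∧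
      r w = hX X.1 * cst qu := by
    rintro ⟨x, F⟩
    have h1 : pr ((hX x * cst qu) ^ m) = 1 := by
      rw [map_pow, map_mul, pr_hX, pr_cst, one_mul, hum]
    obtain ⟨v, hv⟩ := exists_hX h1
    obtain ⟨r, hr1, hr2⟩ := h.ext (MonoidHom.id Q2) Function.injective_id
      (hX.comp (tup F v)) (hX x * cst qu) (by
      rw [hv, MonoidHom.comp_apply, htup])
    exact ⟨r, v, hr1, hr2⟩
  choose R V hR1 hR2 using hex
  have hpr : ∀ X, pr.comp (R X) = y := by
    intro X
    refine h.hom_eq (fun x hx => ?_) ?_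
    · rw [MonoidHom.comp_apply, hR1 X ⟨x, hx⟩, pr_hX, hyA ⟨x, hx⟩]
      rfl
    · rw [MonoidHom.comp_apply, hR2, map_mul, pr_hX, pr_cst, one_mul, hyw]
  have hfDL : Finite (DL y) := by
    have : Finite (Γ →* Q2) := by
      have hΓ : Group.FG Γ := Group.fg_of_surjective hF.surj
      exact fin_hom
    infer_instance
  have hlow : Nat.card M3 * Nat.card hZ ^ 3 ≤ Nat.card (DL y) := by
    have h1 : Nat.card (Fin 3 → hZ) = Nat.card hZ ^ 3 := by
      rw [Nat.card_fun, Nat.card_fin]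
    rw [← h1, ← Nat.card_prod]
    refine Nat.card_le_card_of_injective (fun X => (⟨R X, fun x => pr_eq.2
      (DFunLike.congr_fun (hpr X) x)⟩ : DL y)) ?_
    intro X X' he
    have he' : R X = R X' := congrArg Subtype.val he
    have h2 : X.1 = X'.1 := by
      have h3 := hR2 X
      rw [he', hR2 X'] at h3
      exact (hX_inj (mul_right_cancel h3)).symm
    apply Prod.ext h2
    have h3 : ∀ x : A, tup X.2 (V X) x = tup X'.2 (V X') x := by
      intro x
      have h4 := hR1 X x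
      rw [he', hR1 X' x] at h4
      exact (hX_inj h4).symm
    have hV : V X = V X' := by
      have h4 := h3 ⟨w ^ m, h.mem⟩
      rwa [htup, htup] at h4
    funext i
    apply Subtype.ext
    ext x : 1
    have h4 := congrFun (h3 x) i
    rw [← hV, htapp, htapp] at h4
    exact mul_right_cancel h4
  have hM3 : Nat.card M3 = 8 := by
    change Nat.card (Fin 3 → ZMod 2) = 8
    rw [Nat.card_fun, Nat.card_fin, Nat.card_zmod]
    norm_num
  rw [hM3] at hlow
  have h1 := h.two_le Φ hF hfg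
  have h2 := dl_le Φ hF.surj y w hyw
  have h3 : (2 : ℕ) ^ (6 * g) = (2 ^ (2 * g)) ^ 3 := by
    rw [← pow_mul]
    congr 1
    omega
  have h4 : (2 ^ (2 * g)) ^ 3 ≤ (Nat.card hZ * 2) ^ 3 := Nat.pow_le_pow_left h1 3
  have h5 : (Nat.card hZ * 2) ^ 3 = 8 * Nat.card hZ ^ 3 := by ring
  have h6 : 0 < (2 : ℕ) ^ (6 * g) := by positivity
  omega

/-- the exponent is one -/
theorem CW.one (Φ : NatBij Λ (SurfG g)) (hF : Fac π) (hfg : Group.FG A) [Group.FG Λ]
    (h : CW A w m) (hm0 : m ≠ 0) : m = 1 := by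
  by_contra hm1
  by_cases hodd : ∃ p : ℕ, p.Prime ∧ p ≠ 2 ∧ p ∣ m
  · obtain ⟨p, hp, hp2, hpm⟩ := hodd
    exact h.no_odd Φ hF hfg p hp hp2 hpm
  · push Not at hodd
    have h1 : m = 2 ^ (m.primeFactorsList.length) := by
      refine Nat.eq_prime_pow_of_unique_prime_dvd hm0 ?_
      intro d hd hdm
      by_contra h2
      exact hodd d hd h2 hdm
    refine h.no_two Φ hF hfg (k := m.primeFactorsList.length) ?_ h1
    by_contra h2
    have h3 : m.primeFactorsList.length = 0 := by omega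
    rw [h3, pow_zero] at h1
    exact hm1 h1

end even

end Pool.Agent.SuEX
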