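import Pool.Agent.Lib.MP_305fdd_al.Su.EX.Tf
import Pool.Agent.Lib.MP_305fdd_al.Su.EX.Two
import Pool.Agent.Lib.MP_305fdd_al.Fr.S.Norm
import Pool.Agent.Lib.MP_305fdd_al.Fr.S.RefAdm

/-!
# MP_305fdd_al, closed surface groups: the sides of a splitting over an infinite cyclic group are not
abelian
-/

set_option autoImplicit false
set_option linter.unusedSectionVars false

namespace Pool.Agent.SuEX

open Matrix (SpecialLinearGroup)
open Pool.Agent.Lib.MP_305fdd_al Pool.Agent.MP_305fdd_al Pool.Agent.SurfCnt Pool.Agent.SuD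
  Pool.Agent.SuFI Pool.Agent.FrS Pool.Agent.FrS.GG Pool.Agent.FrN Pool.Agent.SuX Pool.Agent.SuS
  Pool.Agent.FrAsm

/-! ## The splitting with one edge of an amalgam -/

section oneA

variable {Γ : Type} [Group Γ] {A A' D : Subgroup Γ}

/-- the refinement of the splitting with one vertex by an amalgam -/
def oneA (h : IsAm ⊤ A A' D) : (GG.one Γ).RefA () where
  ka e := e.elim
  kb e := e.elim
  ka_mem e := e.elim
  kb_mem e := e.elim
  ka_one e := e.elim
  kb_one e := e.elim
  A := A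
  A' := A'
  D := D
  am := h
  pa e := e.elim
  pb e := e.elim
  ca e := e.elim
  cb e := e.elim

variable {F : Type} [Field F] {ρ : Γ →* SpecialLinearGroup (Fin 2) F}

/-- LEMMA X for amalgams: an abelian factor is of finite index over the edge group -/
theorem lx_am (hlx : LX ρ) (h : IsAm ⊤ A A' D) (hA : A.FG) (hA' : A'.FG) (hD : D.FG)
    (hc : ∀ x ∈ A', ∀ y ∈ A', x * y = y * x) (m : Γ) (hm : m ∈ D) (hm1 : ρ m ≠ 1) :
    (D.subgroupOf A').FiniteIndex ∧ ∀ y ∈ A', ∃ n : ℕ, 0 < n ∧ y ^ n ∈ D := by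
  refine LX.sub hlx ((GG.one Γ).refA () (oneA h)) (refA_up (one_up Γ) (oneA h)) ?_ ?_ none hc D h.le'
    ?_ ?_ m hm hm1
  · intro v
    cases v with
    | none => exact hA'
    | some v =>
      cases v
      change (if () = () then A else ⊤).FG
      rw [if_pos rfl]
      exact hA
  · intro e
    cases e with
    | none => exact hD
    | some e => exact e.elim
  · intro e he
    cases e with
    | none => exact absurd he (by simp [refA])
    | some e => exact e.elim
  · intro e _ c hc'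
    cases e with
    | none =>
      have h1 : ((1 : Γ))⁻¹ * c * 1 = c := by group
      change (1 : Γ)⁻¹ * c * 1 ∈ D
      rw [h1]
      exact hc'
    | some e => exact e.elim

end oneA

section main

variable {g : ℕ} {Λ Γ K F : Type} [Group Λ] [Group Γ] [Field K] [Field F] [Algebra (ZMod 2) K]
  [Algebra (ZMod 2) F] [Algebra K F] {T : Γ → K} {ρ : Γ →* SpecialLinearGroup (Fin 2) F}
  {π : Λ →* Γ}

/-- a factor which is abelian is the edge group -/
theorem am_cyc (hinj : Function.Injective ρ) (hlx : LX ρ)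
    (htf : ∀ (x : Γ) (n : ℕ), n ≠ 0 → x ^ n = 1 → x = 1) [Group.FG Λ]
    (Φ : NatBij Λ (SurfG g)) (hF : Fac π) {A A' : Subgroup Γ} {z : Γ} (hz : z ≠ 1)
    (h : IsAm ⊤ A A' (Subgroup.zpowers z)) (hA : A.FG) (hA' : A'.FG)
    (hc : ∀ x ∈ A', ∀ y ∈ A', x * y = y * x) : A' = Subgroup.zpowers z := by
  have hD : (Subgroup.zpowers z).FG := Subgroup.fg_iff _ |>.2
    ⟨{z}, (Subgroup.zpowers_eq_closure z).symm, Set.finite_singleton z⟩
  have hρz : ρ z ≠ 1 := fun h0 => hz (hinj (by rw [h0, map_one]))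
  obtain ⟨hfi, -⟩ := lx_am hlx h hA hA' hD hc z (Subgroup.mem_zpowers z) hρz
  obtain ⟨w, hw⟩ := cyc_of_fin htf A' (Subgroup.zpowers z) hc z rfl hfi
  obtain ⟨m, hm⟩ : ∃ m : ℤ, w ^ m = z := by
    have h1 : z ∈ A' := h.le' (Subgroup.mem_zpowers z)
    rw [hw] at h1
    exact Subgroup.mem_zpowers_iff.1 h1
  have hm0 : m ≠ 0 := by
    rintro rfl
    rw [zpow_zero] at hm
    exact hz hm.symm
  -- we may assume that the exponent is positive
  obtain ⟨w', n, hw', hn⟩ : ∃ (w' : Γ) (n : ℕ), A' = Subgroup.zpowers w' ∧ w' ^ n = z := by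
    rcases Int.natAbs_eq m with he | he
    · exact ⟨w, m.natAbs, hw, by rw [← zpow_natCast, ← he]; exact hm⟩
    · refine ⟨w⁻¹, m.natAbs, by rw [Subgroup.zpowers_inv]; exact hw, ?_⟩
      rw [inv_pow, ← zpow_natCast, ← zpow_neg, ← he]
      exact hm
  have hn0 : n ≠ 0 := by
    rintro rfl
    rw [pow_zero] at hn
    exact hz hn.symm
  have hCW : CW A w' n := by
    refine ⟨?_, ?_⟩
    · rw [hn, ← hw']
      exact h
    · intro k hk
      by_contra hk0
      have hw1 : w' ≠ 1 := by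
        rintro rfl
        rw [one_pow] at hn
        exact hz hn.symm
      apply hw1
      refine htf w' k.natAbs (Int.natAbs_ne_zero.2 hk0) ?_
      rcases Int.natAbs_eq k with he | he
      · rw [← zpow_natCast, ← he]
        exact hk
      · rw [← inv_inj, inv_one, ← zpow_natCast, ← zpow_neg, ← he]
        exact hk
  have h1 := hCW.one Φ hF ((Group.fg_iff_subgroup_fg A).2 hA) hn0
  rw [hw', ← hn, h1, pow_one]

/-- the hypotheses of this file for a group in the class -/
theorem htf_of (H : Sc Γ K F T ρ) (hT : TP ρ) :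
    ∀ (x : Γ) (n : ℕ), n ≠ 0 → x ^ n = 1 → x = 1 :=
  fun _ _ hn hx => tf H.fg H.inj hT H.div hn hx

/-- EXCLUSION OF ABELIAN SIDES, amalgams: the factors are not abelian -/
theorem am_na (H : Sc Γ K F T ρ) (hT : TP ρ) [Group.FG Λ] (Φ : NatBij Λ (SurfG g)) (hF : Fac π)
    {A A' : Subgroup Γ} {z : Γ} (hz : z ≠ 1) (h : IsAm ⊤ A A' (Subgroup.zpowers z)) (hA : A.FG)
    (hA' : A'.FG) (hp : ∃ x ∈ A, x ∉ Subgroup.zpowers z) (hp' : ∃ x ∈ A', x ∉ Subgroup.zpowers z) :
    (¬ ∀ x ∈ A, ∀ y ∈ A, x * y = y * x) ∧ ¬ ∀ x ∈ A', ∀ y ∈ A', x * y = y * x := by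
  constructor
  · intro hc
    obtain ⟨x, hx, hx'⟩ := hp
    rw [am_cyc H.inj H.lx (htf_of H hT) Φ hF hz (h.symm) hA' hA hc] at hx
    exact hx' hx
  · intro hc
    obtain ⟨x, hx, hx'⟩ := hp'
    rw [am_cyc H.inj H.lx (htf_of H hT) Φ hF hz h hA hA' hc] at hx
    exact hx' hx

/-- EXCLUSION OF ABELIAN SIDES, HNN extensions: the base is not abelian -/
theorem hn_na (H : Sc Γ K F T ρ) {A : Subgroup Γ} {z s : Γ} (hz : z ≠ 1)
    (h : IsHn ⊤ A (Subgroup.zpowers z) s) : ¬ ∀ x ∈ A, ∀ y ∈ A, x * y = y * x := by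
  intro hc
  have hT : Tor Γ := tor_of H.inj H.div
  have hzA : z ∈ A := h.le (Subgroup.mem_zpowers z)
  have hzA' : s⁻¹ * z * s ∈ A := h.le' z (Subgroup.mem_zpowers z)
  -- `s` commutes with `z`
  have h1 : s * z = z * s := hT.conj s z hz (hc _ hzA' _ hzA)
  -- `s` commutes with `A`
  have h2 : ∀ x ∈ A, s * x = x * s := fun x hx =>
    hT.trans s z x hz h1 (hc z hzA x hx)
  apply H.nab
  have h3 : (⊤ : Subgroup Γ) ≤ Subgroup.centralizer (A ∪ {s} : Set Γ) := by
    rw [h.sup]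
    refine sup_le ?_ ?_
    · intro x hx
      rw [Subgroup.mem_centralizer_iff]
      rintro y (hy | rfl)
      · exact hc y hy x hx
      · exact h2 x hx
    · rw [Subgroup.zpowers_le, Subgroup.mem_centralizer_iff]
      rintro y (hy | rfl)
      · exact (h2 y hy).symm
      · rfl
  have h4 : ∀ x : Γ, (⊤ : Subgroup Γ) ≤ Subgroup.centralizer {x} := by
    intro x
    rw [h.sup]
    have h5 := Subgroup.mem_centralizer_iff.1 (h3 (Subgroup.mem_top x))
    refine sup_le ?_ ?_
    · intro y hy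
      rw [Subgroup.mem_centralizer_iff]
      rintro _ rfl
      exact (h5 y (Or.inl hy)).symm
    · rw [Subgroup.zpowers_le, Subgroup.mem_centralizer_iff]
      rintro _ rfl
      exact (h5 s (Or.inr rfl)).symm
  intro x y
  exact (Subgroup.mem_centralizer_iff.1 (h4 x (Subgroup.mem_top y)) x rfl)

end main

end Pool.Agent.SuEX
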