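import Pool.Agent.Lib.MP_305fdd_al.Su.FI.Main
import Pool.Agent.Lib.MP_305fdd_al.Su.X.Fac
import Pool.Agent.Lib.MP_305fdd_al.Fr.S.Defs

/-!
# MP_305fdd_al, closed surface groups: amalgams with an infinite cyclic factor

`CW A w m` : `Γ` is the amalgam of `A` and the infinite cyclic group `⟨w⟩` over `⟨w ^ m⟩`, as far as
representations in `SL_2` are concerned.
-/

set_option autoImplicit false
set_option linter.unusedSectionVars false

namespace Pool.Agent.SuEX

open Matrix (SpecialLinearGroup)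
open Pool.Agent.Lib.MP_305fdd_al Pool.Agent.MP_305fdd_al Pool.Agent.SurfCnt Pool.Agent.SuD
  Pool.Agent.SuFI Pool.Agent.FrS Pool.Agent.FrN Pool.Agent.SuX

/-- `Γ` is the amalgam of `A` and the infinite cyclic group `⟨w⟩` over `⟨w ^ m⟩` -/
structure CW {Γ : Type} [Group Γ] (A : Subgroup Γ) (w : Γ) (m : ℕ) : Prop where
  am : IsAm ⊤ A (Subgroup.zpowers w) (Subgroup.zpowers (w ^ m))
  inf : ∀ n : ℤ, w ^ n = 1 → n = 0

section cw

variable {Γ : Type} [Group Γ] {A : Subgroup Γ} {w : Γ} {m : ℕ}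

theorem CW.mem (h : CW A w m) : w ^ m ∈ A := h.am.le (Subgroup.mem_zpowers _)

theorem CW.top (h : CW A w m) : (⊤ : Subgroup Γ) = A ⊔ Subgroup.zpowers w := h.am.sup

/-- homomorphisms are determined on `A` and `w` -/
theorem CW.hom_eq (h : CW A w m) {Q : Type} [Group Q] {r r' : Γ →* Q} (hA : ∀ x ∈ A, r x = r' x)
    (hw : r w = r' w) : r = r' := by
  apply MonoidHom.ext
  intro x
  have h1 : (⊤ : Subgroup Γ) ≤ r.eqLocus r' := by
    rw [h.top]
    exact sup_le hA (by rw [Subgroup.zpowers_le]; exact hw)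
  exact h1 (Subgroup.mem_top x)

open Classical in
/-- homomorphisms to a group which embeds into some `SL_2(R)` -/
theorem CW.ext (h : CW A w m) {Q R : Type} [Group Q] [CommRing R] [Algebra (ZMod 2) R]
    (j : Q →* SpecialLinearGroup (Fin 2) R) (hj : Function.Injective j) (a : A →* Q) (c : Q)
    (hz : a ⟨w ^ m, h.mem⟩ = c ^ m) : ∃ r : Γ →* Q, (∀ x : A, r x = a x) ∧ r w = c := by
  have hu : ∀ n n' : ℤ, w ^ n = w ^ n' → n = n' := by
    intro n n' he
    have h1 := h.inf (n - n') (by rw [zpow_sub, he, mul_inv_cancel])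
    omega
  let ra : Γ → SpecialLinearGroup (Fin 2) R := fun x => if hx : x ∈ A then j (a ⟨x, hx⟩) else 1
  let rb : Γ → SpecialLinearGroup (Fin 2) R := fun x =>
    if hx : ∃ n : ℤ, w ^ n = x then j (c ^ (Classical.choose hx)) else 1
  have hra : ∀ x (hx : x ∈ A), ra x = j (a ⟨x, hx⟩) := fun x hx => dif_pos hx
  have hrb : ∀ n : ℤ, rb (w ^ n) = j (c ^ n) := by
    intro n
    have hx : ∃ n' : ℤ, w ^ n' = w ^ n := ⟨n, rfl⟩
    have h1 : rb (w ^ n) = j (c ^ (Classical.choose hx)) := dif_pos hx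
    rw [h1, hu _ _ (Classical.choose_spec hx)]
  obtain ⟨q, hq, hqA, hqw⟩ := h.am.ext R ra rb (by
      intro x hx y hy
      rw [hra x hx, hra y hy, hra _ (mul_mem hx hy), ← map_mul, ← map_mul]
      rfl) (by
      rintro _ ⟨n, rfl⟩ _ ⟨n', rfl⟩
      change rb (w ^ n * w ^ n') = rb (w ^ n) * rb (w ^ n')
      rw [← zpow_add, hrb, hrb, hrb, zpow_add, map_mul]) (by
      rintro _ ⟨n, rfl⟩
      change ra ((w ^ m) ^ n) = rb ((w ^ m) ^ n)
      have h1 : (w ^ m) ^ n = w ^ ((m : ℤ) * n) := by rw [zpow_mul, zpow_natCast]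
      have h2 : (⟨(w ^ m) ^ n, zpow_mem h.mem n⟩ : A) = ⟨w ^ m, h.mem⟩ ^ n := rfl
      have h3 : rb ((w ^ m) ^ n) = j (c ^ ((m : ℤ) * n)) := by rw [h1, hrb]
      rw [hra _ (zpow_mem h.mem n), h2, h3, map_zpow a, hz, zpow_mul, zpow_natCast])
  let q' : Γ →* SpecialLinearGroup (Fin 2) R := MonoidHom.mk' q fun x y =>
    hq x (Subgroup.mem_top x) y (Subgroup.mem_top y)
  have hA' : ∀ x : A, q' x = j (a x) := fun x => (hqA x x.2).trans (hra x x.2)
  have hw' : q' w = j c := by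
    have h1 := hqw w (Subgroup.mem_zpowers w)
    have h2 := hrb 1
    rw [zpow_one, zpow_one] at h2
    exact h1.trans h2
  have hr : ∀ x, q' x ∈ j.range := by
    intro x
    have h1 : (⊤ : Subgroup Γ) ≤ j.range.comap q' := by
      rw [h.top]
      refine sup_le ?_ ?_
      · intro y hy
        exact ⟨a ⟨y, hy⟩, (hA' ⟨y, hy⟩).symm⟩
      · rw [Subgroup.zpowers_le]
        exact ⟨c, hw'.symm⟩
    exact h1 (Subgroup.mem_top x)
  let e := (MonoidHom.ofInjective hj).symm
  have he : ∀ q : Q, e ⟨j q, ⟨q, rfl⟩⟩ = q := fun q => (MonoidHom.ofInjective hj).symm_apply_apply q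
  refine ⟨e.toMonoidHom.comp (q'.codRestrict j.range hr), ?_, ?_⟩
  · intro x
    change e ⟨q' x, hr x⟩ = a x
    rw [← he (a x)]
    congr 1
    exact Subtype.ext (hA' x)
  · change e ⟨q' w, hr w⟩ = c
    rw [← he c]
    congr 1
    exact Subtype.ext hw'

theorem CW.ext' (h : CW A w m) {Q : Type} [Group Q] (hQ : Emb Q) (a : A →* Q) (c : Q)
    (hz : a ⟨w ^ m, h.mem⟩ = c ^ m) : ∃ r : Γ →* Q, (∀ x : A, r x = a x) ∧ r w = c := by
  obtain ⟨κ, _, _, _, j, hj⟩ := hQ
  exact h.ext j hj a c hz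

/-- the homomorphisms of `A` which are trivial on `w ^ m` -/
abbrev HZ (h : CW A w m) (Q : Type) [Group Q] : Type := {f : A →* Q // f ⟨w ^ m, h.mem⟩ = 1}

/-- `|Hom(Γ, M)| ≤ |{f : A → M, f (w ^ m) = 1}| |M|` -/
theorem CW.card_le (h : CW A w m) (M : Type) [CommGroup M] [Finite M] [Finite (A →* M)] :
    Nat.card (Γ →* M) ≤ Nat.card (HZ h M) * Nat.card M := by
  classical
  -- evaluation at `w`
  let E : (Γ →* M) →* M :=
    { toFun := fun r => r w
      map_one' := rfl
      map_mul' := fun _ _ => rfl }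
  have hfin : Finite (Γ →* M) := by
    refine Finite.of_injective (fun r : Γ →* M => (r.comp A.subtype, r w)) ?_
    intro r r' he
    rw [Prod.mk.injEq] at he
    exact h.hom_eq (fun x hx => DFunLike.congr_fun he.1 ⟨x, hx⟩) he.2
  have h1 : Nat.card (Γ →* M) = Nat.card E.ker * Nat.card E.range := by
    rw [Subgroup.card_eq_card_quotient_mul_card_subgroup E.ker, mul_comm]
    congr 1
    exact Nat.card_congr (QuotientGroup.quotientKerEquivRange E).toEquiv
  rw [h1]
  refine Nat.mul_le_mul ?_ (Nat.card_le_card_of_injective _ Subtype.val_injective)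
  refine Nat.card_le_card_of_injective (fun r : E.ker =>
    (⟨r.1.comp A.subtype, ?_⟩ : HZ h M)) ?_
  · have h2 : r.1 w = 1 := r.2
    change r.1 (w ^ m) = 1
    rw [map_pow, h2, one_pow]
  · intro r r' he
    have h2 : r.1 w = 1 := r.2
    have h3 : r'.1 w = 1 := r'.2
    apply Subtype.ext
    refine h.hom_eq (fun x hx => ?_) (h2.trans h3.symm)
    exact DFunLike.congr_fun (congrArg Subtype.val he) ⟨x, hx⟩

end cw

section odd

variable {g : ℕ} {Λ Γ : Type} [Group Λ] [Group Γ] {π : Λ →* Γ} {A : Subgroup Γ} {w : Γ} {m : ℕ}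

/-- the exponent has no odd prime factor -/
theorem CW.no_odd (Φ : NatBij Λ (SurfG g)) (hF : Fac π) (hfg : Group.FG A) (h : CW A w m)
    (p : ℕ) (hp : p.Prime) (hp2 : p ≠ 2) (hpm : p ∣ m) : False := by
  have hodd : Odd p := hp.odd_of_ne_two hp2
  obtain ⟨k, _, _, _, hk⟩ := exists_units' p hodd
  obtain ⟨f1, hf1⟩ := hk p dvd_rfl
  have hfM : Finite (Multiplicative k) := inferInstanceAs (Finite k)
  have hfA : Finite (A →* Multiplicative k) := fin_hom
  -- the torus
  set ζ : kˣ := f1 (Multiplicative.ofAdd 1) with hζ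
  have hζ1 : ζ ≠ 1 := by
    intro h0
    have h1 : Multiplicative.ofAdd (1 : ZMod p) = 1 := hf1 (h0.trans (map_one f1).symm)
    have h2 : (1 : ZMod p) = 0 := h1
    have : Fact (1 < p) := ⟨hp.one_lt⟩
    exact one_ne_zero h2
  have hζp : ζ ^ m = 1 := by
    obtain ⟨n, rfl⟩ := hpm
    rw [pow_mul, hζ, ← map_pow]
    have h1 : (Multiplicative.ofAdd (1 : ZMod p)) ^ p = 1 := by
      rw [← ofAdd_nsmul]
      simp
    rw [h1, map_one, one_pow]
  have hζ0 : (1 : k) - (ζ : k) ≠ 0 := by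
    intro h0
    apply hζ1
    apply Units.ext
    rw [Units.val_one]
    exact (sub_eq_zero.1 h0).symm
  obtain ⟨χ, hχA, hχw⟩ := h.ext' (emb_units k) (1 : A →* kˣ) ζ (by
    rw [hζp]; rfl)
  have hχ1 : χ ≠ 1 := by
    intro h0
    apply hζ1
    rw [← hχw, h0]
    rfl
  -- powers of elements of the affine group
  have hpow : ∀ c : k, ((⟨c, ζ⟩ : AF kˣ k)) ^ m = 1 := by
    intro c
    have h1 : (⟨c, ζ⟩ : AF kˣ k) = ⟨c * (1 - (ζ : k))⁻¹, 1⟩ * ⟨0, ζ⟩ *
        (⟨c * (1 - (ζ : k))⁻¹, 1⟩ : AF kˣ k)⁻¹ := by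
      apply AF.ext
      · have h2 : c * (1 - (ζ : k))⁻¹ - (ζ : k) * (c * (1 - (ζ : k))⁻¹) = c := by
          have h3 : c * (1 - (ζ : k))⁻¹ - (ζ : k) * (c * (1 - (ζ : k))⁻¹) =
              c * ((1 - (ζ : k)) * (1 - (ζ : k))⁻¹) := by ring
          rw [h3, mul_inv_cancel₀ hζ0, mul_one]
        simp only [AF.mul_v, AF.mul_q, AF.inv_v, one_mul, one_smul, inv_one,
          smul_zero, add_zero, smul_neg, Units.smul_def, smul_eq_mul]
        rw [← sub_eq_add_neg]
        exact h2.symm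
      · simp
    have h2 : ∀ n : ℕ, ((⟨0, ζ⟩ : AF kˣ k)) ^ n = ⟨0, ζ ^ n⟩ := by
      intro n
      induction n with
      | zero => rw [pow_zero, pow_zero]; rfl
      | succ n ih =>
        rw [pow_succ, ih, pow_succ]
        apply AF.ext
        · simp
        · rfl
    rw [h1, conj_pow, h2, hζp]
    have h3 : (⟨0, 1⟩ : AF kˣ k) = 1 := rfl
    rw [h3, mul_one, mul_inv_cancel]
  -- crossed homomorphisms
  have hc : ∀ x : HZ h (Multiplicative k) × k, ∃ r : Γ →* AF kˣ k, (AF.pr kˣ k).comp r = χ ∧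
      (∀ y : A, (r y).v = (x.1.1 y).toAdd) ∧ (r w).v = x.2 := by
    rintro ⟨⟨f, hf⟩, c⟩
    obtain ⟨r, h1, h2⟩ := h.ext' (emb_AF k)
      ({ toFun := fun y => ⟨(f y).toAdd, 1⟩
         map_one' := by rw [map_one]; rfl
         map_mul' := by
          intro y y'
          apply AF.ext
          · simp
          · simp } : A →* AF kˣ k) ⟨c, ζ⟩ (by
      rw [hpow]
      change (⟨(f _).toAdd, 1⟩ : AF kˣ k) = 1
      rw [hf]
      rfl)
    refine ⟨r, ?_, ?_, ?_⟩
    · refine h.hom_eq (fun y hy => ?_) ?_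
      · rw [MonoidHom.comp_apply, h1 ⟨y, hy⟩, hχA ⟨y, hy⟩]
        rfl
      · rw [MonoidHom.comp_apply, h2, hχw]
        rfl
    · intro y
      rw [h1]
      rfl
    · rw [h2]
  choose R hR1 hR2 hR3 using hc
  have hfC : Finite (Crs χ k) := by
    have hf1 : Finite (Crs (χ.comp π) k) := by
      apply Nat.finite_of_card_ne_zero
      intro h0
      have h1 := card_Crs Φ (χ.comp π) k
      rw [h0, zero_mul] at h1
      have : 0 < Nat.card k ^ (2 * g) := pow_pos Nat.card_pos _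
      omega
    refine Finite.of_injective (fun c : Crs χ k =>
      (⟨fun x => c.1 (π x), fun x y => by
        change c.1 (π (x * y)) = _
        rw [map_mul]
        exact c.2 (π x) (π y)⟩ : Crs (χ.comp π) k)) ?_
    intro c c' he
    apply Subtype.ext
    funext y
    obtain ⟨x, rfl⟩ := hF.surj y
    exact congrFun (congrArg Subtype.val he) x
  have hlow : Nat.card (HZ h (Multiplicative k)) * Nat.card k ≤ Nat.card (Crs χ k) := by
    rw [← Nat.card_prod]
    refine Nat.card_le_card_of_injective (fun x => (crsEquiv χ k).symm ⟨R x, hR1 x⟩) ?_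
    intro x x' he
    have h1 := (crsEquiv χ k).symm.injective he
    have h2 : R x = R x' := congrArg Subtype.val h1
    apply Prod.ext
    · apply Subtype.ext
      apply MonoidHom.ext
      intro y
      have h3 := hR2 x y
      rw [h2, hR2 x' y] at h3
      exact h3.symm
    · rw [← hR3 x, ← hR3 x', h2]
  have hup : Nat.card (Crs χ k) * Nat.card k = Nat.card k ^ (2 * g) := by
    rw [hF.card_Crs (emb_AF k) χ]
    refine card_crs_ne Φ k (χ.comp π) ?_
    intro h0
    apply hχ1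
    exact (MonoidHom.cancel_right hF.surj).1 (h0.trans rfl)
  have htot : Nat.card k ^ (2 * g) ≤ Nat.card (HZ h (Multiplicative k)) * Nat.card k := by
    have h1 := h.card_le (Multiplicative k)
    rw [hF.card (emb_add k), card_hom_add Φ] at h1
    exact h1
  have h2 : 1 < Nat.card k := Finite.one_lt_card
  have h3 : 0 < Nat.card k ^ (2 * g) := pow_pos (by omega) _
  nlinarith [htot.trans hlow]

end odd

end Pool.Agent.SuEX
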