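import Pool.Agent.Lib.MP_305fdd_al.Su.S.Defs
import Pool.Agent.Lib.MP_305fdd_al.Fr.Top.Ab

/-!
# MP_305fdd_al, closed surface groups: `Γ` is torsion free if the trivial representation is a point of
the ring of `ρ`
-/

set_option autoImplicit false
set_option linter.unusedSectionVars false

namespace Pool.Agent.SuEX

open Matrix Pool.Agent.FrDiv Pool.Agent.FrN Pool.Agent.FrAsm Pool.Agent.FrTop Pool.Agent.SuS

/-- the trivial representation is a point of the ring of `ρ` -/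
def TP {Γ F : Type} [Group Γ] [Field F] [Algebra (ZMod 2) F]
    (ρ : Γ →* SpecialLinearGroup (Fin 2) F) : Prop :=
  ∃ φ : OO 2 ρ →ₐ[ZMod 2] ZMod 2,
    ∀ x i j, φ ⟨(ρ x).1 i j, mem_OO ρ x i j⟩ = (1 : Matrix (Fin 2) (Fin 2) (ZMod 2)) i j

section tf

variable {Γ F : Type} [Group Γ] [Field F] [Algebra (ZMod 2) F]
  {ρ : Γ →* SpecialLinearGroup (Fin 2) F}

/-- there is no torsion of odd order -/
theorem tf_odd (hfg : Group.FG Γ) (hinj : Function.Injective ρ) (hT : TP ρ) {x : Γ} {n : ℕ}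
    (hn : Odd n) (hx : x ^ n = 1) : x = 1 := by
  obtain ⟨φ, hφ'⟩ := hT
  have hφ : ∀ g i j, φ ((rO ρ g).1 i j) = (1 : Matrix (Fin 2) (Fin 2) (ZMod 2)) i j := hφ'
  have key : ∀ k i j, (rO ρ x).1 i j - (1 : Matrix (Fin 2) (Fin 2) (OO 2 ρ)) i j ∈
      mI ρ φ ^ k := by
    intro k
    let mk := Ideal.Quotient.mk (mI ρ φ ^ k)
    let z : SpecialLinearGroup (Fin 2) (OO 2 ρ ⧸ mI ρ φ ^ k) := SpecialLinearGroup.map mk (rO ρ x)
    have hJ : ((mI ρ φ).map mk) ^ k = ⊥ := by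
      rw [← Ideal.map_pow]
      exact Ideal.map_quotient_self _
    have h1 : z ^ 2 ^ k = 1 := by
      refine sl_pow two_eq _ k hJ z fun i j => ?_
      have h2 := Ideal.mem_map_of_mem mk (rO_mem hφ x i j)
      rw [map_sub, one_map] at h2
      exact h2
    have h2 : z ^ n = 1 := by
      change (SpecialLinearGroup.map mk (rO ρ x)) ^ n = 1
      rw [← map_pow, ← map_pow, hx, map_one, map_one]
    have h3 : z = 1 := by
      have h4 : Nat.gcd (2 ^ k) n = 1 := (Nat.Coprime.pow_left k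
        (Nat.coprime_two_left.2 hn))
      have h5 := pow_gcd_eq_one.2 ⟨h1, h2⟩
      rwa [h4, pow_one] at h5
    intro i j
    have h4 : z.1 i j = mk ((rO ρ x).1 i j) := rfl
    have h5 : mk ((rO ρ x).1 i j) = mk ((1 : Matrix (Fin 2) (Fin 2) (OO 2 ρ)) i j) := by
      rw [← h4, h3, one_map]
      rfl
    exact Ideal.Quotient.eq.1 h5
  have h1 : rO ρ x = 1 := by
    apply Subtype.ext
    ext i j
    have h2 : (rO ρ x).1 i j - (1 : Matrix (Fin 2) (Fin 2) (OO 2 ρ)) i j = 0 :=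
      krull' (φ := φ) fun k => key k i j
    rw [sub_eq_zero.1 h2]
    rfl
  exact hinj (by rw [rO_eq_one h1, map_one])

/-- `Γ` is torsion free -/
theorem tf (hfg : Group.FG Γ) (hinj : Function.Injective ρ) (hT : TP ρ)
    (hdiv : ∀ g, (ρ g).1.trace = 0 → g = 1) {x : Γ} {n : ℕ} (hn : n ≠ 0) (hx : x ^ n = 1) :
    x = 1 := by
  obtain ⟨a, m, hm, rfl⟩ := Nat.exists_eq_two_pow_mul_odd hn
  rw [pow_mul] at hx
  have h1 := tf_odd hfg hinj hT hm hx
  clear hx hn
  induction a with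
  | zero => simpa using h1
  | succ a ih =>
    rw [pow_succ, pow_mul] at h1
    exact ih (sq_one hdiv _ h1)

end tf

end Pool.Agent.SuEX
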